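import Pool.Agent.Helper7.PN.Eval

/-!
# `h^{1,1}` minus the Picard number is a derived invariant
-/

set_option autoImplicit false

namespace Pool.Agent.Hodge7

open Pool.Agent.Hodge81 Module Complex

section

variable {n : ℕ} {A : Type*} [Ring A] [Algebra ℂ A] (X : HodgeRing n A)

theorem mem_degree {p q k : ℕ} (h : p + q = k) {a : A} (ha : a ∈ X.H p q) : a ∈ degree X k :=
  le_iSup₂ (f := fun (x : ℕ × ℕ) (_ : x.1 + x.2 = k) => X.H x.1 x.2) (p, q) h ha

theorem degree_induct {k : ℕ} {P : A → Prop} (h : ∀ p q : ℕ, p + q = k → ∀ a ∈ X.H p q, P a)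
    (h0 : P 0) (hadd : ∀ a b, P a → P b → P (a + b)) {a : A} (ha : a ∈ degree X k) : P a := by
  have ha' : a ∈ ⨆ x : {x : ℕ × ℕ // x.1 + x.2 = k}, X.H x.1.1 x.1.2 := by
    rw [iSup_subtype]
    exact ha
  induction ha' using Submodule.iSup_induction' with
  | mem x b hb => exact h _ _ x.2 b hb
  | zero => exact h0
  | add b c hb' hc' hb hc =>
    have e : (⨆ x : {x : ℕ × ℕ // x.1 + x.2 = k}, X.H x.1.1 x.1.2) = degree X k := by
      rw [iSup_subtype]
      rfl
    exact hadd b c (hb (e ▸ hb')) (hc (e ▸ hc'))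

/-- the component of degree two -/
noncomputable def deg2 : A →ₗ[ℂ] A := X.proj 2 0 + X.proj 1 1 + X.proj 0 2

theorem deg2_apply (a : A) : deg2 X a = X.proj 2 0 a + X.proj 1 1 a + X.proj 0 2 a := rfl

theorem deg2_of_mem {p q : ℕ} {a : A} (ha : a ∈ X.H p q) :
    deg2 X a = if p + q = 2 then a else 0 := by
  rw [deg2_apply, X.proj_of_mem _ _ ha, X.proj_of_mem _ _ ha, X.proj_of_mem _ _ ha]
  simp only [Prod.mk.injEq]
  by_cases h : p + q = 2
  · obtain ⟨rfl, rfl⟩ | ⟨rfl, rfl⟩ | ⟨rfl, rfl⟩ : (p = 2 ∧ q = 0) ∨ (p = 1 ∧ q = 1) ∨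
      (p = 0 ∧ q = 2) := by omega
    all_goals simp
  · rw [if_neg (by omega), if_neg (by omega), if_neg (by omega), if_neg h]
    simp

theorem deg2_of_degree {k : ℕ} {a : A} (ha : a ∈ degree X k) :
    deg2 X a = if k = 2 then a else 0 := by
  refine degree_induct X (P := fun a => deg2 X a = if k = 2 then a else 0)
    (fun p q hpq a ha => ?_) (by simp) (fun a b h1 h2 => ?_) ha
  · rw [deg2_of_mem X ha, hpq]
  · rw [map_add, h1, h2]
    split_ifs <;> simp

theorem proj_deg2 (a : A) : X.proj 0 2 (deg2 X a) = X.proj 0 2 a := by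
  refine X.induct (P := fun a => X.proj 0 2 (deg2 X a) = X.proj 0 2 a) (fun p q a ha => ?_)
    (by simp) (fun a b h1 h2 => by rw [map_add, map_add, map_add, h1, h2]) a
  rw [deg2_of_mem X ha]
  split_ifs with h
  · rfl
  · rw [map_zero, X.proj_of_mem _ _ ha, if_neg (by
      intro h'
      simp only [Prod.mk.injEq] at h'
      omega)]

theorem proj_column {i : ℤ} (hi : i ≠ -2) {a : A} (ha : a ∈ X.column i) :
    X.proj 0 2 a = 0 := by
  refine X.column_induct (P := fun a => X.proj 0 2 a = 0) (fun p q hpq a ha => ?_)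
    (by simp) (fun a b h1 h2 => by rw [map_add, h1, h2, add_zero]) ha
  rw [X.proj_of_mem _ _ ha, if_neg (by
    intro h'
    simp only [Prod.mk.injEq] at h'
    omega)]

theorem column_mul {i j : ℤ} {a b : A} (ha : a ∈ X.column i) (hb : b ∈ X.column j) :
    a * b ∈ X.column (i + j) := by
  refine X.column_induct (P := fun a => a * b ∈ X.column (i + j)) (fun p q hpq a ha => ?_)
    (by rw [zero_mul]; exact zero_mem _)
    (fun a b h1 h2 => by rw [add_mul]; exact add_mem h1 h2) ha
  refine X.column_induct (P := fun b => a * b ∈ X.column (i + j)) (fun p' q' hpq' b hb => ?_)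
    (by rw [mul_zero]; exact zero_mem _)
    (fun a b h1 h2 => by rw [mul_add]; exact add_mem h1 h2) hb
  exact X.mem_column (by push_cast; omega) (X.mul_mem _ _ _ _ _ _ ha hb)

theorem exists_parts {a : A} (ha : a ∈ degree X 2) :
    ∃ a20 ∈ X.H 2 0, ∃ a11 ∈ X.H 1 1, ∃ a02 ∈ X.H 0 2, a = a20 + a11 + a02 := by
  refine degree_induct X (P := fun a => ∃ a20 ∈ X.H 2 0, ∃ a11 ∈ X.H 1 1, ∃ a02 ∈ X.H 0 2,
    a = a20 + a11 + a02) (fun p q hpq a ha => ?_)
    ⟨0, zero_mem _, 0, zero_mem _, 0, zero_mem _, by simp⟩ ?_ ha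
  · obtain ⟨rfl, rfl⟩ | ⟨rfl, rfl⟩ | ⟨rfl, rfl⟩ : (p = 2 ∧ q = 0) ∨ (p = 1 ∧ q = 1) ∨
      (p = 0 ∧ q = 2) := by omega
    · exact ⟨a, ha, 0, zero_mem _, 0, zero_mem _, by simp⟩
    · exact ⟨0, zero_mem _, a, ha, 0, zero_mem _, by simp⟩
    · exact ⟨0, zero_mem _, 0, zero_mem _, a, ha, by simp⟩
  · rintro f g ⟨f0, h0, f1, h1, f2, h2, rfl⟩ ⟨g0, k0, g1, k1, g2, k2, rfl⟩
    exact ⟨f0 + g0, add_mem h0 k0, f1 + g1, add_mem h1 k1, f2 + g2, add_mem h2 k2, by abel⟩

variable [FiniteDimensional ℂ A]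

/-- the second Betti number -/
theorem finrank_degree : finrank ℂ (degree X 2) = X.h 1 1 + 2 * X.h 0 2 := by
  have e : degree X 2 = (X.H 2 0 ⊔ X.H 1 1) ⊔ X.H 0 2 := by
    apply le_antisymm
    · intro a ha
      obtain ⟨a0, h0, a1, h1, a2, h2, rfl⟩ := exists_parts X ha
      exact add_mem (Submodule.mem_sup_left (add_mem (Submodule.mem_sup_left h0)
        (Submodule.mem_sup_right h1))) (Submodule.mem_sup_right h2)
    · refine sup_le (sup_le ?_ ?_) ?_
      · intro a ha
        exact mem_degree X (by norm_num) ha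
      · intro a ha
        exact mem_degree X (by norm_num) ha
      · intro a ha
        exact mem_degree X (by norm_num) ha
  have hle : ∀ x y : ℕ × ℕ, x ≠ y → X.H x.1 x.2 ≤ ⨆ z, ⨆ (_ : z ≠ y), X.H z.1 z.2 :=
    fun x y hxy => le_iSup₂ (f := fun (z : ℕ × ℕ) (_ : z ≠ y) => X.H z.1 z.2) x hxy
  have d1 : X.H 2 0 ⊓ X.H 1 1 = ⊥ := by
    rw [← disjoint_iff]
    exact (X.indep (2, 0)).mono_right (hle (1, 1) (2, 0) (by simp))
  have d2 : (X.H 2 0 ⊔ X.H 1 1) ⊓ X.H 0 2 = ⊥ := by
    rw [← disjoint_iff]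
    exact ((X.indep (0, 2)).mono_right (sup_le (hle (2, 0) (0, 2) (by simp))
      (hle (1, 1) (0, 2) (by simp)))).symm
  have f1 := Submodule.finrank_sup_add_finrank_inf_eq (X.H 2 0) (X.H 1 1)
  have f2 := Submodule.finrank_sup_add_finrank_inf_eq (X.H 2 0 ⊔ X.H 1 1) (X.H 0 2)
  rw [d1, finrank_bot] at f1
  rw [d2, finrank_bot] at f2
  have f3 : X.h 2 0 = X.h 0 2 := X.h_conj 2 0
  unfold HodgeRing.h at f3 ⊢
  rw [e]
  omega

end

section

variable {n : ℕ} {A B : Type*} [Ring A] [Algebra ℂ A] [Module ℚ A]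
  [Ring B] [Algebra ℂ B] [Module ℚ B] {X : HodgeRing n A} {Y : HodgeRing n B}

namespace RationalCohomology

theorem mem_classes (R : RationalCohomology X) {k : ℕ} {a : A} (ha : a ∈ R.H k) :
    a ∈ R.classes := le_iSup R.H k ha

theorem le_degree (R : RationalCohomology X) {k : ℕ} {a : A} (ha : a ∈ R.H k) :
    a ∈ degree X k := by
  rw [← R.span k]
  exact Submodule.subset_span ha

theorem classes_mul (R : RationalCohomology X) {a b : A} (ha : a ∈ R.classes)
    (hb : b ∈ R.classes) : a * b ∈ R.classes := by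
  unfold classes at ha
  induction ha using Submodule.iSup_induction' with
  | mem k a ha =>
    unfold classes at hb
    induction hb using Submodule.iSup_induction' with
    | mem l b hb => exact R.mem_classes (R.mul_mem k l a b ha hb)
    | zero => rw [mul_zero]; exact zero_mem _
    | add b c _ _ hb hc => rw [mul_add]; exact add_mem hb hc
  | zero => rw [zero_mul]; exact zero_mem _
  | add a c _ _ h1 h2 => rw [add_mul]; exact add_mem h1 h2

theorem omega_pow (R : RationalCohomology X) (j : ℕ) : X.omega ^ j ∈ R.classes := by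
  induction j with
  | zero => rw [pow_zero]; exact R.mem_classes R.one_mem
  | succ j ih => rw [pow_succ]; exact R.classes_mul ih (R.mem_classes R.omega_mem)

theorem smul_classes (R : RationalCohomology X) (q : ℚ) {a : A} (ha : a ∈ R.classes) :
    (q : ℂ) • a ∈ R.classes := by
  rw [Rat.cast_smul_eq_qsmul]
  exact Submodule.smul_mem _ _ ha

theorem expo_mem (R : RationalCohomology X) (q : ℚ) : X.expo (q : ℂ) ∈ R.classes := by
  unfold HodgeRing.expo
  refine Submodule.sum_mem _ fun j _ => ?_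
  have e : ((q : ℂ) ^ j * ((j.factorial : ℕ) : ℂ)⁻¹) =
      ((q ^ j * ((j.factorial : ℕ) : ℚ)⁻¹ : ℚ) : ℂ) := by
    push_cast
    ring
  rw [e]
  exact R.smul_classes _ (R.omega_pow j)

theorem deg2_mem (R : RationalCohomology X) {a : A} (ha : a ∈ R.classes) :
    deg2 X a ∈ R.H 2 := by
  unfold classes at ha
  induction ha using Submodule.iSup_induction' with
  | mem k a ha =>
    rw [deg2_of_degree X (R.le_degree ha)]
    split_ifs with h
    · exact h ▸ ha
    · exact zero_mem _
  | zero => rw [map_zero]; exact zero_mem _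
  | add a c _ _ h1 h2 => rw [map_add]; exact add_mem h1 h2

theorem ev_mem (R : RationalCohomology X) (S : RationalCohomology Y) {phi : A ≃ₗ[ℂ] B}
    (hphi : IsRational R S phi) (q : ℚ) {b : B} (hb : b ∈ S.classes) :
    ev X phi (q : ℂ) b ∈ R.classes := by
  rw [ev_apply]
  have e : -(q : ℂ) = ((-q : ℚ) : ℂ) := by push_cast; ring
  rw [e]
  refine R.classes_mul ?_ (R.expo_mem (-q))
  rw [hphi, LinearEquiv.apply_symm_apply]
  exact S.classes_mul hb ((hphi _).1 (R.expo_mem q))

end RationalCohomology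

variable {phi : A ≃ₗ[ℂ] B}

omit [Module ℚ A] [Module ℚ B] in
theorem ev_column (hM : IsMukaiIsometry X Y phi) (t : ℂ) {i : ℤ} {y : B}
    (hy : y ∈ Y.column i) : ev X phi t y ∈ X.column i := by
  have h1 : phi (X.expo t) ∈ Y.column 0 := by
    rw [← hM.column 0]
    exact ⟨_, expo_column X t, rfl⟩
  have h2 := column_mul Y hy h1
  rw [add_zero, ← hM.column i] at h2
  obtain ⟨a, ha, he⟩ := h2
  have h3 : phi.symm (y * phi (X.expo t)) = a := by
    rw [← he]
    exact phi.symm_apply_apply a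
  rw [ev_apply, h3]
  have h4 := column_mul X ha (expo_column X (-t))
  rwa [add_zero] at h4

omit [Module ℚ A] in
/-- a rational class of degree two with transcendental part is not mapped to a divisor -/
theorem mem_divisors {P : PolyvectorAction X} {Q : PolyvectorAction Y}
    (hphi : IsHochschildIso P Q phi) (hM : IsMukaiIsometry X Y phi)
    (S : RationalCohomology Y) {t : ℂ} (ht : ∀ y ∈ Y.H 0 2, ev X phi t y = 0 → y = 0)
    {b : B} (hb : b ∈ S.H 2) (h : deg2 X (ev X phi t b) ∈ X.H 1 1) : b ∈ Y.H 1 1 := by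
  obtain ⟨b0, h0, b1, h1, b2, h2, he⟩ := exists_parts Y (S.le_degree hb)
  have e1 : X.proj 0 2 (ev X phi t b) = ev X phi t b2 := by
    rw [he, map_add, map_add, map_add, map_add,
      proj_column X (i := 2) (by norm_num)
        (ev_column hM t (Y.mem_column (by norm_num) h0)),
      proj_column X (i := 0) (by norm_num)
        (ev_column hM t (Y.mem_column (by norm_num) h1)),
      X.proj_of_mem 0 2 (Pool.Agent.Hodge7.ev_mem hphi t h2), if_pos rfl]
    simp
  have e2 : X.proj 0 2 (ev X phi t b) = 0 := by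
    rw [← proj_deg2, X.proj_of_mem 0 2 h, if_neg (by simp)]
  have e3 : b2 = 0 := ht b2 h2 (by rw [← e1, e2])
  have e4 : Y.proj 2 0 b = b0 := by
    rw [he, e3, map_add, map_add, Y.proj_of_mem 2 0 h0, Y.proj_of_mem 2 0 h1, map_zero]
    simp
  have e5 : Y.proj 2 0 b = 0 := by
    rw [← S.real 2 b hb, he, e3, add_zero, map_add, map_add,
      Y.proj_of_mem 2 0 (Y.conj_mem _ _ _ h0), Y.proj_of_mem 2 0 (Y.conj_mem _ _ _ h1)]
    simp
  rw [he, e3, ← e4, e5, zero_add, add_zero]
  exact h1

variable [FiniteDimensional ℂ A] [FiniteDimensional ℂ B]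

theorem picard_le {P : PolyvectorAction X} {Q : PolyvectorAction Y}
    (hphi : IsHochschildIso P Q phi) (hM : IsMukaiIsometry X Y phi)
    (R : RationalCohomology X) (S : RationalCohomology Y) (hR : IsRational R S phi) :
    Y.h 1 1 + R.picard ≤ X.h 1 1 + S.picard := by
  have h02 : X.h 0 2 = Y.h 0 2 :=
    h_eq hphi P.eval P.kerOne P.kerTwo Q.eval Q.kerOne Q.kerTwo (Or.inr rfl)
  obtain ⟨q, hq⟩ := exists_rat_inj hphi h02
    (fun y hy h0 => evalE_inj hphi P.eval P.kerOne P.kerTwo (Or.inr rfl) hy h0)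
  have := R.finite 2
  have := S.finite 2
  -- the map to the quotient
  let N : Submodule ℚ A := (X.H 1 1).restrictScalars ℚ
  let m : S.H 2 →ₗ[ℚ] R.H 2 := LinearMap.codRestrict (R.H 2)
    (((deg2 X ∘ₗ ev X phi (q : ℂ)).restrictScalars ℚ).domRestrict (S.H 2))
    (fun b => R.deg2_mem (R.ev_mem S hR q (S.mem_classes b.2)))
  let D : Submodule ℚ (R.H 2) := N.comap (R.H 2).subtype
  let E : Submodule ℚ (S.H 2) := ((Y.H 1 1).restrictScalars ℚ).comap (S.H 2).subtype
  let g : S.H 2 →ₗ[ℚ] (R.H 2 ⧸ D) := D.mkQ ∘ₗ m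
  have hker : LinearMap.ker g ≤ E := by
    intro b hb
    have h1 : m b ∈ D := (Submodule.Quotient.mk_eq_zero D).1 hb
    exact mem_divisors hphi hM S hq b.2 h1
  have f1 := LinearMap.finrank_range_add_finrank_ker g
  have f2 := Submodule.finrank_mono hker
  have f3 := Submodule.finrank_le (LinearMap.range g)
  have f4 := Submodule.finrank_quotient_add_finrank D
  have f5 : finrank ℚ D = R.picard := by
    unfold RationalCohomology.picard RationalCohomology.divisors
    rw [← Submodule.finrank_map_subtype_eq (R.H 2) D, Submodule.map_comap_subtype]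
  have f6 : finrank ℚ E = S.picard := by
    unfold RationalCohomology.picard RationalCohomology.divisors
    rw [← Submodule.finrank_map_subtype_eq (S.H 2) E, Submodule.map_comap_subtype]
  have f7 := R.finrank_eq 2
  have f8 := S.finrank_eq 2
  rw [finrank_degree] at f7 f8
  omega

/-- `h^{1,1}` minus the Picard number is a derived invariant -/
theorem picard_eq {P : PolyvectorAction X} {Q : PolyvectorAction Y}
    (hphi : IsHochschildIso P Q phi) (hM : IsMukaiIsometry X Y phi)
    (R : RationalCohomology X) (S : RationalCohomology Y) (hR : IsRational R S phi) :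
    X.h 1 1 + S.picard = Y.h 1 1 + R.picard := by
  refine le_antisymm ?_ (picard_le hphi hM R S hR)
  refine picard_le hphi.symm hM.symm S R fun b => ?_
  rw [hR, LinearEquiv.apply_symm_apply]

/-- the final statement -/
theorem picard_main (X : HodgeRing n A) (Y : HodgeRing n B) (P : PolyvectorAction X)
    (Q : PolyvectorAction Y) (R : RationalCohomology X) (S : RationalCohomology Y)
    (phi : A ≃ₗ[ℂ] B) (hphi : IsHochschildIso P Q phi) (hM : IsMukaiIsometry X Y phi)
    (hR : IsRational R S phi) :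
    X.h 1 1 + S.picard = Y.h 1 1 + R.picard ∧
    (n ≤ 5 → ((∀ p q, X.h p q = Y.h p q) ↔ R.picard = S.picard)) := by
  have h1 := picard_eq hphi hM R S hR
  refine ⟨h1, fun hn => ⟨fun h => ?_, fun h => ?_⟩⟩
  · have := h 1 1
    omega
  · have h11 : X.h 1 1 = Y.h 1 1 := by omega
    have h2 := forms_main X Y P Q phi hphi
    obtain ⟨k1, k2, k3, k4⟩ := h2
    obtain ⟨-, k5, k6⟩ := k4 hM
    rcases Nat.lt_or_ge n 5 with hn' | hn'
    · exact k5 (by omega)
    · obtain rfl : n = 5 := by omega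
      have hoff := (k6 rfl).1
      have hsum := column_sum hM (a := 0) (b := 0) (m := 5) (by norm_num) (Or.inl rfl)
      simp only [zero_add, Finset.sum_range_succ, Finset.sum_range_zero] at hsum
      have h00 : X.h 0 0 = Y.h 0 0 := by
        unfold HodgeRing.h
        rw [X.connected, Y.connected]
      have x5 : X.h 5 5 = X.h 0 0 := X.h_serre (p := 0) (q := 0) (by norm_num) (by norm_num)
      have x4 : X.h 4 4 = X.h 1 1 := X.h_serre (p := 1) (q := 1) (by norm_num) (by norm_num)
      have x3 : X.h 3 3 = X.h 2 2 := X.h_serre (p := 2) (q := 2) (by norm_num) (by norm_num)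
      have y5 : Y.h 5 5 = Y.h 0 0 := Y.h_serre (p := 0) (q := 0) (by norm_num) (by norm_num)
      have y4 : Y.h 4 4 = Y.h 1 1 := Y.h_serre (p := 1) (q := 1) (by norm_num) (by norm_num)
      have y3 : Y.h 3 3 = Y.h 2 2 := Y.h_serre (p := 2) (q := 2) (by norm_num) (by norm_num)
      intro p q
      by_cases hpq : p = q
      · subst hpq
        rcases Nat.lt_or_ge 5 p with h5 | h5
        · unfold HodgeRing.h
          rw [X.bounded _ _ (Or.inl h5), Y.bounded _ _ (Or.inl h5), finrank_bot, finrank_bot]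
        · interval_cases p <;> omega
      · exact hoff p q hpq

end

end Pool.Agent.Hodge7
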