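import Pool.Agent.Helper28.HT.Defs

/-!
# Rational cohomology and the Picard number
-/

set_option autoImplicit false

namespace Pool.Agent.Hodge7

open Pool.Agent.Hodge81 Module

variable {n : ℕ} {A B : Type*} [Ring A] [Algebra ℂ A] [Module ℚ A]
  [Ring B] [Algebra ℂ B] [Module ℚ B]

/-- the part `H^k(X, ℂ)` of degree `k` -/
def degree (X : HodgeRing n A) (k : ℕ) : Submodule ℂ A :=
  ⨆ (x : ℕ × ℕ) (_ : x.1 + x.2 = k), X.H x.1 x.2

/-- The rational cohomology groups `H^k(X, ℚ)` inside `A = H^*(X, ℂ)`, for an ample class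
`omega` which is rational. -/
structure RationalCohomology (X : HodgeRing n A) where
  /-- the image of `H^k(X, ℚ)` -/
  H : ℕ → Submodule ℚ A
  finite : ∀ k, Module.Finite ℚ (H k)
  span : ∀ k, Submodule.span ℂ (H k : Set A) = degree X k
  finrank_eq : ∀ k, finrank ℚ (H k) = finrank ℂ (degree X k)
  one_mem : (1 : A) ∈ H 0
  mul_mem : ∀ k l a b, a ∈ H k → b ∈ H l → a * b ∈ H (k + l)
  real : ∀ k a, a ∈ H k → X.conj a = a
  omega_mem : X.omega ∈ H 2

/-- the rational classes in `H^*(X, ℂ)` -/
def RationalCohomology.classes {X : HodgeRing n A} (R : RationalCohomology X) : Submodule ℚ A :=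
  ⨆ k, R.H k

/-- the rational classes in `H^{1,1}(X)`, which are the classes of divisors -/
noncomputable def RationalCohomology.divisors {X : HodgeRing n A} (R : RationalCohomology X) : Submodule ℚ A :=
  R.H 2 ⊓ (X.H 1 1).restrictScalars ℚ

/-- the Picard number -/
noncomputable def RationalCohomology.picard {X : HodgeRing n A} (R : RationalCohomology X) : ℕ :=
  finrank ℚ R.divisors

/-- `phi` maps the rational classes onto the rational classes -/
def IsRational {X : HodgeRing n A} {Y : HodgeRing n B} (R : RationalCohomology X)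
    (S : RationalCohomology Y) (phi : A ≃ₗ[ℂ] B) : Prop :=
  ∀ a, a ∈ R.classes ↔ phi a ∈ S.classes

end Pool.Agent.Hodge7
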