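import Pool.Agent.Helper28.HT.Final
import Pool.Agent.Helper7.PN.Defs

/-!
# The evaluation at `exp (t omega)` and its dependence on `t`
-/

set_option autoImplicit false

namespace Pool.Agent.Hodge7

open Pool.Agent.Hodge81 Module Complex Polynomial

variable {n : ℕ} {A B : Type*} [Ring A] [Algebra ℂ A] [Ring B] [Algebra ℂ B]

/-- `y ↦ exp (-t omega) phi⁻¹ (y phi (exp (t omega)))` -/
noncomputable def ev (X : HodgeRing n A) (phi : A ≃ₗ[ℂ] B) (t : ℂ) : B →ₗ[ℂ] A :=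
  (LinearMap.mulRight ℂ (X.expo (-t))) ∘ₗ phi.symm.toLinearMap ∘ₗ
    (LinearMap.mulRight ℂ (phi (X.expo t)))

theorem ev_apply (X : HodgeRing n A) (phi : A ≃ₗ[ℂ] B) (t : ℂ) (y : B) :
    ev X phi t y = phi.symm (y * phi (X.expo t)) * X.expo (-t) := rfl

variable {X : HodgeRing n A} {Y : HodgeRing n B} {P : PolyvectorAction X}
  {Q : PolyvectorAction Y} {phi : A ≃ₗ[ℂ] B}

theorem ev_mem (h : IsHochschildIso P Q phi) (t : ℂ) {k : ℕ} {y : B} (hy : y ∈ Y.H 0 k) :
    ev X phi t y ∈ X.H 0 k := by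
  obtain ⟨x, hx, he⟩ := P.exists_eval (tr_mem h hy) t
  rw [tr_apply] at he
  rw [ev_apply, he, mul_assoc, X.expo_mul, add_neg_cancel, X.expo_zero, mul_one]
  exact hx

/-- a linear functional of the evaluation is a polynomial in `t` -/
theorem exists_poly (X : HodgeRing n A) (phi : A ≃ₗ[ℂ] B) (c : A →ₗ[ℂ] ℂ) (y : B) :
    ∃ p : ℂ[X], ∀ t : ℂ, c (ev X phi t y) = p.eval t := by
  refine ⟨∑ j ∈ Finset.range (n + 1), ∑ l ∈ Finset.range (n + 1),
    Polynomial.C ((-1) ^ j * ((j.factorial : ℕ) : ℂ)⁻¹ * ((l.factorial : ℕ) : ℂ)⁻¹ *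
      c (phi.symm (y * phi (X.omega ^ l)) * X.omega ^ j)) * Polynomial.X ^ (l + j), fun t => ?_⟩
  rw [Polynomial.eval_finsetSum, ev_apply]
  conv_lhs => rw [HodgeRing.expo, HodgeRing.expo]
  rw [Finset.mul_sum, map_sum]
  refine Finset.sum_congr rfl fun j _ => ?_
  rw [Polynomial.eval_finsetSum, map_sum, Finset.mul_sum, map_sum, Finset.sum_mul, map_sum]
  refine Finset.sum_congr rfl fun l _ => ?_
  rw [map_smul, mul_smul_comm, map_smul, mul_smul_comm, map_smul, smul_mul_assoc, map_smul,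
    smul_eq_mul, smul_eq_mul, Polynomial.eval_mul, Polynomial.eval_C, Polynomial.eval_pow,
    Polynomial.eval_X, neg_pow t j, pow_add]
  ring

theorem exists_rat_eval_ne_zero {p : ℂ[X]} (hp : p ≠ 0) : ∃ q : ℚ, p.eval (q : ℂ) ≠ 0 := by
  by_contra hcon
  push Not at hcon
  refine hp (Polynomial.eq_zero_of_infinite_isRoot p ?_)
  refine Set.Infinite.mono (s := Set.range (fun q : ℚ => (q : ℂ))) ?_
    (Set.infinite_range_of_injective Rat.cast_injective)
  rintro _ ⟨q, rfl⟩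
  exact hcon q

variable [FiniteDimensional ℂ A] [FiniteDimensional ℂ B]

/-- the evaluation at `exp (t omega)` is injective on `H^{0,2}` for some rational `t` -/
theorem exists_rat_inj (h : IsHochschildIso P Q phi) (h02 : X.h 0 2 = Y.h 0 2)
    (hI : ∀ y ∈ Y.H 0 2, ev X phi I y = 0 → y = 0) :
    ∃ q : ℚ, ∀ y ∈ Y.H 0 2, ev X phi (q : ℂ) y = 0 → y = 0 := by
  classical
  let e : X.H 0 2 ≃ₗ[ℂ] Y.H 0 2 := LinearEquiv.ofFinrankEq _ _ h02
  -- the endomorphism of `H^{0,2}(Y)` and its matrix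
  let f : ℂ → (Y.H 0 2 →ₗ[ℂ] Y.H 0 2) := fun t => e.toLinearMap ∘ₗ
    (LinearMap.codRestrict (X.H 0 2) ((ev X phi t).domRestrict (Y.H 0 2))
      (fun y => ev_mem h t y.2))
  let b := Module.finBasis ℂ (Y.H 0 2)
  have hc : ∀ i, ∃ c : A →ₗ[ℂ] ℂ, ∀ x : X.H 0 2, c x = b.coord i (e x) := by
    intro i
    obtain ⟨g, hg⟩ := LinearMap.exists_extend (p := X.H 0 2) ((b.coord i) ∘ₗ e.toLinearMap)
    exact ⟨g, fun x => LinearMap.congr_fun hg x⟩
  choose c hc using hc
  have hp : ∀ i j, ∃ p : ℂ[X], ∀ t : ℂ, c i (ev X phi t (b j : B)) = p.eval t := fun i j =>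
    exists_poly X phi (c i) (b j : B)
  choose p hp using hp
  let M : Matrix _ _ ℂ[X] := Matrix.of p
  have hM : ∀ t : ℂ, LinearMap.toMatrix b b (f t) = (Polynomial.evalRingHom t).mapMatrix M := by
    intro t
    ext i j
    rw [LinearMap.toMatrix_apply, RingHom.mapMatrix_apply, Matrix.map_apply]
    change _ = (p i j).eval t
    rw [← hp i j t]
    exact (hc i ⟨ev X phi t (b j : B), ev_mem h t (b j).2⟩).symm
  have hdet : ∀ t : ℂ, LinearMap.det (f t) = M.det.eval t := by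
    intro t
    rw [← LinearMap.det_toMatrix b, hM, ← RingHom.map_det]
    rfl
  have hker : ∀ t : ℂ, (∀ y ∈ Y.H 0 2, ev X phi t y = 0 → y = 0) ↔ LinearMap.det (f t) ≠ 0 := by
    intro t
    rw [← isUnit_iff_ne_zero, ← LinearMap.isUnit_iff_isUnit_det, LinearMap.isUnit_iff_ker_eq_bot,
      LinearMap.ker_eq_bot']
    constructor
    · intro h1 y hy
      have h2 : ev X phi t y = 0 := by
        have h3 := (LinearEquiv.map_eq_zero_iff e).1 hy
        exact congrArg Subtype.val h3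
      exact Subtype.ext (h1 _ y.2 h2)
    · intro h1 y hy h2
      have h3 := h1 ⟨y, hy⟩ ((LinearEquiv.map_eq_zero_iff e).2 (Subtype.ext h2))
      exact congrArg Subtype.val h3
  have h1 := (hker I).1 hI
  rw [hdet] at h1
  have h2 : M.det ≠ 0 := by
    intro h3
    rw [h3, Polynomial.eval_zero] at h1
    exact h1 rfl
  obtain ⟨q, hq⟩ := exists_rat_eval_ne_zero h2
  refine ⟨q, (hker q).2 ?_⟩
  rw [hdet]
  exact hq

end Pool.Agent.Hodge7
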